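import Pool.Agent.Lib_MP_c7e57a.Choose
import Pool.Agent.Lib_MP_c7e57a.Prime

/-!
# Linear projections of very general complete intersections

Let `X` be an `n`-dimensional complete intersection of `r ≥ 2` hypersurfaces of large degrees
`d_1, ..., d_r` in projective space of dimension `n + r` over `ℂ`, whose equations have
coefficients that are algebraically independent over `ℚ`. Then `X` is irreducible and reduced, and
the degree of irrationality of `X` is at most `∏ d_c - N`, where

`N = r (n + 1) + ∑_a (j_a ^ i + i - (i + 1) (i + j_a - 1).choose i)`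

for any `1 ≤ i ≤ r - 1` and any finite family of orders `j_a ≥ 2` that can be distributed over
`G ≤ (n + 1) / (i + 1)` groups in such a way that the sum of the numbers
`(i + j_a - 1).choose i` over each group is at most `r`.

The bound comes from the projection from a linear space of dimension `r - 1` that has contact of
order `j_a` with `X` along `i`-dimensional germs at suitable points, and that passes through as many
further points of `X` as possible.
-/

namespace Pool.Agent.Results.MP_c7e57a_ag.BasePoints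

open MvPolynomial Pool.Agent.Lib_MP_c7e57a

theorem result (n r i G : ℕ) (hn : 1 ≤ n) (hi : 1 ≤ i) (hir : i < r)
    (hG : G * (i + 1) ≤ n + 1) {φ : Type} [Fintype φ] (g : φ → Fin G) (j : φ → ℕ)
    (hj : ∀ a, 2 ≤ j a) (hC : ∀ g₀, ∑ a with g a = g₀, (i + j a - 1).choose i ≤ r) :
    ∃ d₀ : ℕ, ∀ d : Fin r → ℕ, (∀ c, d₀ ≤ d c) →
      ∀ f : Fin r → MvPolynomial (Fin (n + r + 1)) ℂ, IndependentForms d f →
      ∃ _ : (Ideal.span (Set.range f)).IsPrime,
        0 < irr n (Ideal.span (Set.range f)) ∧
        irr n (Ideal.span (Set.range f)) + r * (n + 1) + ∑ a, (j a ^ i + i) ≤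
          ∏ c, d c + ∑ a, (i + 1) * (i + j a - 1).choose i := by
  classical
  obtain ⟨n, rfl⟩ : ∃ n', n = n' + 1 := ⟨n - 1, by omega⟩
  obtain ⟨q, rfl⟩ : ∃ q, r = q + 1 := ⟨r - 1, by omega⟩
  have hiq : i ≤ q := by omega
  -- the blocks
  obtain ⟨blk⟩ : Nonempty ((Fin G × Fin (i + 1)) ↪ Fin (n + 1 + 1)) := by
    apply Function.Embedding.nonempty_of_card_le
    rw [Fintype.card_prod, Fintype.card_fin, Fintype.card_fin, Fintype.card_fin]
    exact hG
  obtain ⟨d₀, hd₀⟩ := exists_special hi hiq blk.injective g hj hC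
  refine ⟨max d₀ 2, fun d hd f hf => ?_⟩
  obtain ⟨hf, hind⟩ := hf
  -- the variables
  let e : Vars (n + 1) q ≃ Fin (n + 1 + (q + 1) + 1) := finSumFinEquiv.trans (finCongr (by omega))
  let f' : Fin (q + 1) → MvPolynomial (Vars (n + 1) q) ℂ := fun c => rename e.symm (f c)
  have hf' : ∀ c, (f' c).IsHomogeneous (d c) := fun c => (hf c).rename_isHomogeneous
  have hind' : AlgebraicIndependent ℚ
      (fun x : Σ c, Mon (Vars (n + 1) q) (d c) => coeff x.2.1 (f' x.1)) := by
    let ψ : (Σ c, Mon (Vars (n + 1) q) (d c)) →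
        Σ c, {w : Fin (n + 1 + (q + 1) + 1) →₀ ℕ // w.degree = d c} := fun x =>
      ⟨x.1, ⟨x.2.1.mapDomain e, by rw [Finsupp.degree_mapDomain]; exact x.2.2⟩⟩
    have hψ : Function.Injective ψ := by
      rintro ⟨c, ⟨w, hw⟩⟩ ⟨c', ⟨w', hw'⟩⟩ h
      obtain rfl : c = c' := congrArg Sigma.fst h
      have h1 : w.mapDomain e = w'.mapDomain e := by
        have h2 := eq_of_heq (Sigma.mk.inj h).2
        exact congrArg Subtype.val h2
      have h2 : w = w' := Finsupp.mapDomain_injective e.injective h1
      subst h2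
      rfl
    have h1 := hind.comp ψ hψ
    have h2 : (fun x : Σ c, {w : Fin (n + 1 + (q + 1) + 1) →₀ ℕ // w.degree = d c} =>
        coeff x.2.1 (f x.1)) ∘ ψ = fun x => coeff x.2.1 (f' x.1) := by
      funext x
      show coeff (x.2.1.mapDomain e) (f x.1) = coeff x.2.1 (rename e.symm (f x.1))
      have h3 : (x.2.1.mapDomain e).mapDomain e.symm = x.2.1 := by
        rw [← Finsupp.mapDomain_comp, e.symm_comp_self, Finsupp.mapDomain_id]
      conv_rhs => rw [← h3]
      rw [coeff_rename_mapDomain _ e.symm.injective]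
    rwa [h2] at h1
  -- the good projection
  set k := fun b => kk q blk g (fun a => (i + j a - 1).choose i) b with hk
  let jj : φ ⊕ (Σ b, Fin (k b)) → ℕ := Sum.elim j (fun _ => 1)
  have hjj : ∀ a, 1 ≤ jj a := by
    rintro (a | x)
    · have := hj a
      show 1 ≤ j a
      omega
    · exact le_rfl
  obtain ⟨φ₀, hφ₀⟩ := hd₀ d (fun c => le_trans (le_max_left _ _) (hd c)) (∏ c, d c + ∑ a, jj a ^ i)
  have hgood : Good hi hiq jj (∏ c, d c + ∑ a, jj a ^ i) d f' :=
    good_of_independent hφ₀ hf' hind'
  have hfe : (fun c => rename e (f' c)) = f := by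
    funext c
    show rename e (rename e.symm (f c)) = f c
    rw [rename_rename, e.self_comp_symm, rename_id_apply]
  have hI : (Ideal.span (Set.range f)).IsPrime := by
    have h1 : (Ideal.span (Set.range f')).IsPrime :=
      prime_of_independent (fun c => le_trans (le_max_right _ _) (hd c)) hf' hind'
    have h2 := Ideal.map_isPrime_of_equiv (renameEquiv ℂ e) (I := Ideal.span (Set.range f'))
    rw [Ideal.map_span, ← Set.range_comp] at h2
    have h3 : ⇑(renameEquiv ℂ e) ∘ f' = f := hfe
    rwa [h3] at h2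
  refine ⟨hI, ?_⟩
  obtain ⟨hpos, hmain⟩ := good_bound hjj le_rfl hf' hgood e (Ideal.span (Set.range f))
    (by rw [hfe])
  refine ⟨hpos, ?_⟩
  -- the count
  have hcount := sum_kk q blk.injective g (fun a => (i + j a - 1).choose i) hC
  have hsum : ∑ a, jj a ^ i = ∑ a, j a ^ i + ∑ b, k b := by
    rw [Fintype.sum_sum_type]
    congr 1
    have h1 : ∀ x : Σ b, Fin (k b), jj (Sum.inr x) ^ i = 1 := fun x => one_pow i
    rw [Finset.sum_congr rfl fun x _ => h1 x, Finset.sum_const, smul_eq_mul, mul_one,
      Finset.card_univ, Fintype.card_sigma]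
    simp only [Fintype.card_fin]
  rw [hsum] at hmain
  have h1 : ∑ a, (j a ^ i + i) = ∑ a, j a ^ i + i * Fintype.card φ := by
    rw [Finset.sum_add_distrib, Finset.sum_const, smul_eq_mul, Finset.card_univ, mul_comm]
  have h2 : ∑ a, (i + 1) * (i + j a - 1).choose i =
      (i + 1) * ∑ a, (i + j a - 1).choose i := by
    rw [Finset.mul_sum]
  rw [h1, h2]
  have h3 : ∑ b, k b = ∑ b, kk q blk g (fun a => (i + j a - 1).choose i) b := rfl
  rw [h3] at hmain
  generalize ∑ b, kk q blk g (fun a => (i + j a - 1).choose i) b = K at hmain hcount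
  generalize (i + 1) * ∑ a, (i + j a - 1).choose i = L at hcount ⊢
  generalize i * Fintype.card φ = R at hcount ⊢
  generalize (q + 1) * (n + 1 + 1) = T at hcount ⊢
  omega

end Pool.Agent.Results.MP_c7e57a_ag.BasePoints
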