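import Pool.Agent.Lib_MP_c7e57a.CovAsy
import Pool.Agent.Lib_MP_c7e57a.CovFun
import Pool.Agent.Lib_MP_c7e57a.Final
import Pool.Agent.Lib_MP_c7e57a.Special2

/-!
# The constant `N(n, r)` grows faster than every multiple of `n r`

Let `i ≥ 1` and `ε > 0`. For all `n ≥ i` and `r > i` such that `n r` is large, the degree of
irrationality of an `n`-dimensional complete intersection `X` of `r` hypersurfaces of large degrees
`d_1, ..., d_r` in projective space of dimension `n + r`, whose equations have coefficients that are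
algebraically independent over `ℚ`, is at most

`∏ d_c - (1 - ε) i! r ⌊(n + 1) / (i + 1)⌋`.

The bound comes from the projection from a linear space of dimension `r - 1` that has contact of
high order with `X` along an `i`-dimensional germ at one point.
-/

namespace Pool.Agent.Results.MP_c7e57a_ag.Factorial

open MvPolynomial Pool.Agent.Lib_MP_c7e57a

theorem result (i : ℕ) (hi : 1 ≤ i) (ε : ℝ) (hε : 0 < ε) :
    ∃ M : ℕ, ∀ n r : ℕ, i ≤ n → i < r → M ≤ n * r →
      ∃ d₀ : ℕ, ∀ d : Fin r → ℕ, (∀ c, d₀ ≤ d c) →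
        ∀ f : Fin r → MvPolynomial (Fin (n + r + 1)) ℂ, IndependentForms d f →
        ∃ _ : (Ideal.span (Set.range f)).IsPrime,
          0 < irr n (Ideal.span (Set.range f)) ∧
          (irr n (Ideal.span (Set.range f)) : ℝ) +
            (1 - ε) * (i.factorial * (r * ((n + 1) / (i + 1))) : ℕ) ≤ (∏ c, d c : ℕ) := by
  classical
  obtain ⟨M, hM⟩ := cov_asymptotic hi hε
  refine ⟨2 * (i + 1) * M, fun n r hin hir hnr => ?_⟩
  obtain ⟨n, rfl⟩ : ∃ n', n = n' + 1 := ⟨n - 1, by omega⟩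
  obtain ⟨q, rfl⟩ : ∃ q, r = q + 1 := ⟨r - 1, by omega⟩
  have hiq : i ≤ q := by omega
  set β := (n + 1 + 1) / (i + 1) with hβ
  have hβ1 : 1 ≤ β := (Nat.one_le_div_iff (by omega)).2 (by omega)
  have hβ2 : n + 1 + 1 < (i + 1) * (β + 1) := by
    rw [hβ]
    exact Nat.lt_mul_div_succ _ (by omega)
  have hβ3 : β * (i + 1) ≤ n + 1 + 1 := Nat.div_mul_le_self _ _
  have hM' : M ≤ β * (q + 1) := by
    have h1 : n + 1 ≤ 2 * (i + 1) * β := by nlinarith
    have h2 : 2 * (i + 1) * M ≤ 2 * (i + 1) * (β * (q + 1)) := by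
      calc 2 * (i + 1) * M ≤ (n + 1) * (q + 1) := hnr
        _ ≤ 2 * (i + 1) * β * (q + 1) := Nat.mul_le_mul_right _ h1
        _ = 2 * (i + 1) * (β * (q + 1)) := by ring
    exact Nat.le_of_mul_le_mul_left h2 (by omega)
  obtain ⟨j, hj, hcov, hjε⟩ := hM β (q + 1) hβ1 (by omega) hM'
  obtain ⟨P, T, hT1, hT2, hcov'⟩ := hcov.functions hiq
  obtain ⟨blk⟩ : Nonempty ((Fin β × Fin (i + 1)) ↪ Fin (n + 1 + 1)) := by
    apply Function.Embedding.nonempty_of_card_le
    rw [Fintype.card_prod, Fintype.card_fin, Fintype.card_fin, Fintype.card_fin]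
    exact hβ3
  obtain ⟨d₀, hd₀⟩ := exists_special2 (n := n + 1) hi hiq blk.injective hT1 hT2 hj hcov'
  refine ⟨max d₀ 2, fun d hd f hf => ?_⟩
  obtain ⟨hI, hpos, hmain⟩ := bound_of_special (j := fun _ : Unit => j) (fun _ => hj) hd₀ hd hf
  refine ⟨hI, hpos, ?_⟩
  have h1 : ∑ _a : Unit, j ^ i = j ^ i := by simp
  rw [h1] at hmain
  have h2 : ((irr (n + 1) (Ideal.span (Set.range f)) : ℕ) : ℝ) + (j : ℝ) ^ i ≤
      (∏ c, d c : ℕ) := by exact_mod_cast hmain
  have h3 : i.factorial * ((q + 1) * β) = i.factorial * (β * (q + 1)) := by ring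
  rw [h3]
  linarith

end Pool.Agent.Results.MP_c7e57a_ag.Factorial
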